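import Mathlib
import Pool.Agent.Lib.MP_f2d8fc_an.Special

/-!
# Fixed points of the iterated Pearson correlation map

Parametrisation of `Fix(C)`: the fixed points correspond one to one to the pairs `(d, P)` of a
positive vector `d` and an orthogonal projection `P` which is block diagonal for the level sets of
`d` and has `P 1 ≠ 1`, for which the matrix `mat d P β` has unit diagonal, where `β` is the unique
positive definite solution of the core equation on the coupled levels.
-/

open Matrix

namespace Pool.Agent.Results.MP_f2d8fc_an.Classification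

open Pool.Agent.MPf2d8fc

theorem result (n : ℕ) (hn : 0 < n) :
    (∀ (d : Fin n → ℝ) (P : Matrix (Fin n) (Fin n) ℝ), Param d P → ∃! β, Core d P β) ∧
    (∀ A : Matrix (Fin n) (Fin n) ℝ, A ∈ FixC n ↔
      ∃ (d : Fin n → ℝ) (P : Matrix (Fin n) (Fin n) ℝ) (β : Matrix (lev d P) (lev d P) ℝ),
        Param d P ∧ Core d P β ∧ A = mat d P β ∧ ∀ i, A i i = 1) ∧
    (∀ (d d' : Fin n → ℝ) (P P' : Matrix (Fin n) (Fin n) ℝ)
      (β : Matrix (lev d P) (lev d P) ℝ) (β' : Matrix (lev d' P') (lev d' P') ℝ),
      Param d P → Param d' P' → Core d P β → Core d' P' β' → mat d P β = mat d' P' β' →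
        (∀ i, mat d P β i i = 1) → d = d' ∧ P = P') ∧
    (∀ (d : Fin n → ℝ) (P : Matrix (Fin n) (Fin n) ℝ) (β : Matrix (lev d P) (lev d P) ℝ),
      Param d P → Core d P β →
        ((∀ i, rowSum (mat d P β) i = 0) ↔ ∀ i, rowSum P i = 0) ∧
        ((∀ i, rowSum P i = 0) → mat d P β = diagonal d * P * diagonal d) ∧
        (∀ t, lev d P = {t} → ∀ i j, mat d P β i j
          = d i * d j * P i j + t ^ 2 / (n - wt d P t) * (rowSum P i * rowSum P j))) :=
  ⟨fun _ _ h => h.core_existsUnique, fun A => mem_FixC_iff_mat hn A,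
    fun _ _ _ _ _ _ h h' hβ hβ' he hd => param_unique h h' hβ hβ' he hd,
    fun _ _ β h hβ => ⟨h.rowSum_mat_zero_iff hβ.1, fun h0 => mat_of_rowSum_zero β h0,
      fun _ ht i j => h.mat_of_one_level hβ ht i j⟩⟩

end Pool.Agent.Results.MP_f2d8fc_an.Classification
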