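import Mathlib
import Pool.Agent.Lib.MP_f2d8fc_an_HOM.Fam

/-!
# Fixed points of the iterated Pearson correlation map all of whose rows have the same variance

Let `A` be a fixed point all of whose rows have the same variance, so `A H A = t ^ 2 A` with the
centring matrix `H`. Then `B = t⁻² A` satisfies `B H B = B`, so `H B H = H - F` for an orthogonal
projection `F` with `F 1 = 0`, and `B` is determined by `F`: with the diagonal `φ` of `F`,
`B = 1 - F + (φ 1ᵀ + 1 φᵀ) / 2 + κ 1 1ᵀ`. The condition that `A` has unit diagonal turns into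
`F φ = 0`. The rank of `A` is `n - 1 - rank F`, so the description is explicit in the ranks
`n - 1` (`F = 0`) and `n - 2` (`F = f fᵀ`, where `F φ = 0` says that the sum of the third powers of
the entries of `f` is zero).
-/

open Matrix

namespace Pool.Agent.Results.MP_f2d8fc_an.EqualVariance

open Pool.Agent.MPf2d8fc Pool.Agent.MPf2d8fcHom

theorem result (n : ℕ) (hn : 2 ≤ n) :
    -- (1) the classification, the uniqueness of `F`, and the rank
    (∀ A : Matrix (Fin n) (Fin n) ℝ, A ∈ FixC n ∧ EqualVariance A ↔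
      ∃ F : Matrix (Fin n) (Fin n) ℝ, Dual F ∧ F.rank + 1 < n ∧ A = hom F) ∧
    (∀ F G : Matrix (Fin n) (Fin n) ℝ, Dual F → Dual G → F.rank + 1 < n → G.rank + 1 < n →
      hom F = hom G → F = G) ∧
    (∀ F : Matrix (Fin n) (Fin n) ℝ, Dual F → F.rank + 1 < n →
      (hom F).rank + F.rank + 1 = n) ∧
    -- (2) rank `n - 1`
    (∀ A : Matrix (Fin n) (Fin n) ℝ, (A ∈ FixC n ∧ EqualVariance A ∧ A.rank + 1 = n) ↔
      ∀ i j, A i j = if i = j then 1 else -1 / ((n : ℝ) - 1)) ∧
    -- (3) rank `n - 2`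
    (3 ≤ n → ∀ A : Matrix (Fin n) (Fin n) ℝ,
      (A ∈ FixC n ∧ EqualVariance A ∧ A.rank + 2 = n) ↔
        ∃ f : Fin n → ℝ, ∑ i, f i = 0 ∧ ∑ i, f i ^ 2 = 1 ∧ ∑ i, f i ^ 3 = 0 ∧
          ∀ i j, A i j = ((if i = j then 1 else 0) + (f i - f j) ^ 2 / 2
            + (∑ k, f k ^ 4 - 9 / n) / 4) / (1 + (∑ k, f k ^ 4 - 9 / n) / 4)) ∧
    -- (4) projections onto spaces of odd vectors
    (∀ F : Matrix (Fin n) (Fin n) ℝ, Fᵀ = F → F * F = F →
      (∃ σ : Equiv.Perm (Fin n), ∀ i j, F (σ i) j = - F i j) → Dual F) ∧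
    -- (5) infinitely many fixed points in every rank from `n / 2` to `n - 2`
    (∀ m : ℕ, 2 ≤ m → 2 * m ≤ n →
      {A : Matrix (Fin n) (Fin n) ℝ |
        A ∈ FixC n ∧ EqualVariance A ∧ A.rank + m = n}.Infinite) :=
  have hn0 : 0 < n := by omega
  ⟨classification hn0, fun _ _ hF hG hrF hrG h => hom_inj hn0 hF hG hrF hrG h,
    fun _ hF hr => hF.rank_hom hn0 hr, top_rank hn, fun h3 A => second_rank h3 A,
    fun _ hs hF ⟨σ, hσ⟩ => dual_of_odd hs hF σ hσ, fun _ hm hmn => infinite_family hm hmn⟩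

end Pool.Agent.Results.MP_f2d8fc_an.EqualVariance
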