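import Mathlib
import Pool.Agent.Lib.MP_f2d8fc_an.OrderFourList

/-!
# The fixed points of the iterated Pearson correlation map for `n = 4`

The complete list of `Fix(C)` for `4 × 4` matrices: the matrices `v vᵀ` for nonconstant sign
vectors `v` and, up to simultaneous permutations of rows and columns, a family indexed by the
points of a circle and five further matrices.
-/

open Matrix

namespace Pool.Agent.Results.MP_f2d8fc_an.OrderFour

open Pool.Agent.MPf2d8fc

theorem result :
    (∀ A : Matrix (Fin 4) (Fin 4) ℝ, A ∈ FixC 4 ↔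
      SignRankOne A ∨ ∃ σ : Equiv.Perm (Fin 4), Listed (A.submatrix σ σ)) ∧
    (∃! c : ℝ, 33 * c ^ 4 - 28 * c ^ 3 + 166 * c ^ 2 - 28 * c + 1 = 0 ∧ c ^ 2 + 1 < 14 * c) := by
  refine ⟨fun A => ⟨fun h => ?_, fun h => ?_⟩, quartic_unique⟩
  · obtain ⟨h1, h2, d, hd, he⟩ := (mem_FixC_iff (by norm_num) A).1 h
    obtain ⟨P, hP⟩ := exists_good (by norm_num) h1 h2 hd he
    exact hP.con
  · rcases h with h | ⟨σ, h⟩
    · exact sign_mem h
    · exact FixC_of_perm σ (listed_mem h)

end Pool.Agent.Results.MP_f2d8fc_an.OrderFour
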