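import Mathlib
import Pool.Agent.Lib.MP_f2d8fc_an_h54.Main

/-!
# All fixed points of rank two of the iterated Pearson correlation map

For every `n` the matrices of rank two in `Fix(C)` are determined. There are two kinds.

* `Circle`: Gram matrices of unit complex numbers `z i`, not all equal up to sign, with
  `n * ∑ z ^ 2 = (∑ z) ^ 2`.
* `TwoLines`: two nonempty clusters with signs `ε`, entries `ε i * ε j` inside the clusters and
  `ε i * ε j * t` between them, where `t` is a root of an explicit quartic and an explicit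
  quadratic fixes the sign. If a cluster contains both signs there is exactly one such `t` in
  the interval `(-1, 1)`; if both clusters have a constant sign there is none.
-/

open Matrix

namespace Pool.Agent.Results.MP_f2d8fc_an.RankTwo

open Pool.Agent.MPf2d8fc Pool.Agent.MPf2d8fcRankTwo

theorem result (n : ℕ) :
    (∀ A : Matrix (Fin n) (Fin n) ℝ, (A ∈ FixC n ∧ A.rank = 2) ↔
      ((∃ z : Fin n → ℂ, (∀ i, ‖z i‖ = 1) ∧ (∃ i j, z i ^ 2 ≠ z j ^ 2) ∧
          n * ∑ i, z i ^ 2 = (∑ i, z i) ^ 2 ∧ ∀ i j, A i j = (z i * star (z j)).re) ∨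
        ∃ (c : Fin n → Bool) (ε : Fin n → ℝ) (t : ℝ), Clusters c ε ∧
          (∃ i j, c i = c j ∧ ε i ≠ ε j) ∧ -1 < t ∧ t < 1 ∧
          Good (act c ε true) (act c ε false) (kap c ε) t ∧ A = clusterMat c ε t)) ∧
    ∀ (c : Fin n → Bool) (ε : Fin n → ℝ), Clusters c ε →
      (∀ t : ℝ, -1 < t → t < 1 →
        (clusterMat c ε t ∈ FixC n ↔
          Good (act c ε true) (act c ε false) (kap c ε) t)) ∧
      ((∃ i j, c i = c j ∧ ε i ≠ ε j) →
        ∃! t : ℝ, (-1 < t ∧ t < 1) ∧ clusterMat c ε t ∈ FixC n) ∧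
      ((¬ ∃ i j, c i = c j ∧ ε i ≠ ε j) →
        ∀ t : ℝ, -1 < t → t < 1 → clusterMat c ε t ∉ FixC n) ∧
      (∀ t : ℝ, -1 < t → t < 1 → clusterMat c ε t ∈ FixC n →
        SignType.sign t = SignType.sign (kap c ε)) := by
  refine ⟨fun A => rankTwo_iff A, fun c ε h => ⟨fun t t1 t2 => h.mem_iff t1 t2,
    fun hm => h.existsUnique hm, fun hm t t1 t2 hF => h.not_good hm t1 t2
      ((h.mem_iff t1 t2).1 hF), fun t t1 t2 hF => h.sign_eq t1 t2 hF⟩⟩

end Pool.Agent.Results.MP_f2d8fc_an.RankTwo
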